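import Mathlib
import Pool.Agent.Q238.PT.Defs
import Pool.Agent.Q238.PT.Defs2
import Pool.Agent.Q238.PT.PartA
import Pool.Agent.Q238.PT.PartB
import Pool.Agent.Q238.PT.PartC
import Pool.Agent.Q238.PT.PartD2

/-!
# MP_7f6035_co: acoptic Petrie schemes, the four classes

(a) Cartesian products of cubes and crosspolytopes: all Petrie schemes are acoptic.
(b) Cartesian products of a cube with a `4k`-gon: not all, for the prism over an octagon and
    for the product of the 3-cube with an octagon.
(c) Uniform convex polytopes: not all, for a three-dimensional one (the triangular prism).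
(d) Regular star-polytopes: all Petrie schemes are acoptic.
-/

namespace Pool.Agent.Results.MP_7f6035_co.PetrieSchemes

open Pool.Agent.Q238.PT

theorem result :
    (∀ P : Poly, CubeCrossProduct P → P.system.OnlyAcoptic) ∧
    (¬ ((cubePoly 1).prod (gonPoly 8)).system.OnlyAcoptic ∧
      ¬ ((cubePoly 3).prod (gonPoly 8)).system.OnlyAcoptic) ∧
    (∃ P : Set (EuclideanSpace ℝ (Fin 5)), IsUniform 3 P ∧ ¬ (convexSystem P).OnlyAcoptic) ∧
    (∀ (E : Type) [NormedAddCommGroup E] [InnerProductSpace ℝ E] (p : List ℚ),
      IsStarSymbol p → ∀ α : Fin (p.length + 1) → E, IsMirrorSystem p α →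
        (mirrorSystem α).OnlyAcoptic) :=
  ⟨partA, ⟨partB1, partB3⟩, partC, fun _ _ _ p hp α h => partD p hp α h⟩

end Pool.Agent.Results.MP_7f6035_co.PetrieSchemes
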